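import Mathlib

/-!
Linear algebra behind the cycle matroid of a finite simple graph.
-/

open Set Submodule

namespace Pool.Agent.P.MP_4e9c6d_co

section Aug

variable {K W β : Type*} [Field K] [AddCommGroup W] [Module K W]

/-- Augmentation for finite linearly independent families. -/
lemma linearIndepOn_aug (w : β → W) {I J : Set β} (hIf : I.Finite) (hJf : J.Finite)
    (hI : LinearIndepOn K w I) (hJ : LinearIndepOn K w J) (hlt : I.ncard < J.ncard) :
    ∃ e ∈ J, e ∉ I ∧ LinearIndepOn K w (insert e I) := by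
  by_contra hcon
  push Not at hcon
  have hsub : ∀ e ∈ J, w e ∈ span K (w '' I) := by
    intro e he
    by_cases heI : e ∈ I
    · exact subset_span ⟨e, heI, rfl⟩
    · by_contra hne
      exact hcon e he heI (hI.insert hne)
  have hle : span K (w '' J) ≤ span K (w '' I) := by
    rw [span_le]
    rintro _ ⟨e, he, rfl⟩
    exact hsub e he
  have : Finite I := hIf
  have : Finite J := hJf
  have := Fintype.ofFinite I
  have := Fintype.ofFinite J
  have h1 : Module.finrank K (span K (w '' J)) = J.ncard := by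
    have := finrank_span_eq_card hJ
    rw [← Set.image_eq_range] at this
    rw [this, ← Nat.card_eq_fintype_card, Nat.card_coe_set_eq]
  have h2 : Module.finrank K (span K (w '' I)) = I.ncard := by
    have := finrank_span_eq_card hI
    rw [← Set.image_eq_range] at this
    rw [this, ← Nat.card_eq_fintype_card, Nat.card_coe_set_eq]
  have : FiniteDimensional K (span K (w '' I)) :=
    FiniteDimensional.span_of_finite K (hIf.image w)
  have := Submodule.finrank_mono hle
  omega

end Aug

section Edge

variable {K W V : Type*} [Field K] [AddCommGroup W] [Module K W]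

/-- The difference of the two end vectors of an edge, for a fixed choice of orientation. -/
noncomputable def edgeVec (p : V → W) (e : Sym2 V) : W := p e.out.1 - p e.out.2

lemma edgeVec_mk (p : V → W) (a b : V) :
    edgeVec p s(a, b) = p a - p b ∨ edgeVec p s(a, b) = p b - p a := by
  have h : s((s(a, b) : Sym2 V).out.1, (s(a, b) : Sym2 V).out.2) = s(a, b) := Quot.out_eq _
  unfold edgeVec
  rcases Sym2.eq_iff.1 h with ⟨h1, h2⟩ | ⟨h1, h2⟩
  · left; rw [h1, h2]
  · right; rw [h1, h2]

lemma edgeVec_mem_iff (p : V → W) (a b : V) (S : Submodule K W) :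
    edgeVec p s(a, b) ∈ S ↔ p a - p b ∈ S := by
  rcases edgeVec_mk p a b with h | h
  · rw [h]
  · rw [h, ← S.neg_mem_iff, neg_sub]

/-- If two vertices are joined by a walk using edges of `I`, the difference of their vectors
lies in the span of the edge vectors of `I`. -/
lemma sub_mem_span_of_reachable (p : V → W) (I : Set (Sym2 V)) {a b : V}
    (h : (SimpleGraph.fromEdgeSet I).Reachable a b) :
    p a - p b ∈ span K (edgeVec p '' I) := by
  obtain ⟨q⟩ := h
  induction q with
  | nil => simp
  | @cons u v w hadj q ih =>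
    have h1 : p u - p v ∈ span K (edgeVec p '' I) := by
      rw [← edgeVec_mem_iff]
      exact subset_span ⟨_, (SimpleGraph.fromEdgeSet_adj _ |>.1 hadj).1, rfl⟩
    have := add_mem h1 ih
    simpa using this

lemma deleteEdges_fromEdgeSet (I : Set (Sym2 V)) (e : Sym2 V) :
    (SimpleGraph.fromEdgeSet I).deleteEdges {e} = SimpleGraph.fromEdgeSet (I \ {e}) := by
  ext a b
  simp only [SimpleGraph.deleteEdges_adj, SimpleGraph.fromEdgeSet_adj, mem_singleton_iff,
    mem_sdiff]
  tauto

/-- A set of non-diagonal edges is acyclic iff the standard edge vectors are independent. -/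
lemma isAcyclic_iff_linearIndepOn [DecidableEq V] (I : Set (Sym2 V))
    (hI : ∀ e ∈ I, ¬ e.IsDiag) :
    (SimpleGraph.fromEdgeSet I).IsAcyclic ↔
      LinearIndepOn K (edgeVec (fun v : V => (Finsupp.single v (1 : K) : V →₀ K))) I := by
  classical
  set p : V → (V →₀ K) := fun v => Finsupp.single v (1 : K) with hp
  rw [SimpleGraph.isAcyclic_iff_forall_isBridge, linearIndepOn_iff_notMem_span]
  constructor
  · intro h e he hmem
    induction e using Sym2.ind with
    | h a b =>
    have hb := h (e := s(a, b)) (by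
      rw [SimpleGraph.edgeSet_fromEdgeSet]; exact ⟨he, hI _ he⟩)
    rw [SimpleGraph.isBridge_iff, deleteEdges_fromEdgeSet] at hb
    set G := SimpleGraph.fromEdgeSet (I \ {s(a, b)}) with hG
    let φ : (V →₀ K) →ₗ[K] K :=
      Finsupp.linearCombination K (fun v => if G.Reachable a v then (1 : K) else 0)
    have hφ : ∀ v, φ (p v) = if G.Reachable a v then (1 : K) else 0 := by
      intro v; simp [φ, hp]
    have hker : span K (edgeVec p '' (I \ {s(a, b)})) ≤ LinearMap.ker φ := by
      rw [span_le]
      rintro _ ⟨e, he', rfl⟩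
      induction e using Sym2.ind with
      | h c d =>
      rw [SetLike.mem_coe, edgeVec_mem_iff, LinearMap.mem_ker, map_sub, hφ, hφ]
      have hcd : G.Adj c d := by
        rw [hG, SimpleGraph.fromEdgeSet_adj]
        exact ⟨he', by simpa using hI _ he'.1⟩
      have : G.Reachable a c ↔ G.Reachable a d :=
        ⟨fun h => h.trans hcd.reachable, fun h => h.trans hcd.symm.reachable⟩
      simp [this]
    have := hker hmem
    rw [edgeVec_mem_iff, LinearMap.mem_ker, map_sub, hφ, hφ] at this
    simp [hb] at this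
  · intro h e he
    induction e using Sym2.ind with
    | h a b =>
    rw [SimpleGraph.edgeSet_fromEdgeSet] at he
    rw [SimpleGraph.isBridge_iff, deleteEdges_fromEdgeSet]
    intro hr
    apply h _ he.1
    rw [edgeVec_mem_iff]
    exact sub_mem_span_of_reachable p _ hr

/-- The augmentation axiom for forests of a finite simple graph. -/
lemma forest_aug [Finite V] (G : SimpleGraph V) ⦃I J : Set (Sym2 V)⦄
    (hI : I ⊆ G.edgeSet ∧ (SimpleGraph.fromEdgeSet I).IsAcyclic)
    (hJ : J ⊆ G.edgeSet ∧ (SimpleGraph.fromEdgeSet J).IsAcyclic) (hlt : I.ncard < J.ncard) :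
    ∃ e ∈ J, e ∉ I ∧
      (insert e I ⊆ G.edgeSet ∧ (SimpleGraph.fromEdgeSet (insert e I)).IsAcyclic) := by
  classical
  have hd : ∀ X : Set (Sym2 V), X ⊆ G.edgeSet → ∀ e ∈ X, ¬ e.IsDiag :=
    fun X hX e he => G.not_isDiag_of_mem_edgeSet (hX he)
  have h1 := (isAcyclic_iff_linearIndepOn (K := ℚ) I (hd I hI.1)).1 hI.2
  have h2 := (isAcyclic_iff_linearIndepOn (K := ℚ) J (hd J hJ.1)).1 hJ.2
  obtain ⟨e, heJ, heI, hli⟩ := linearIndepOn_aug _ (toFinite I) (toFinite J) h1 h2 hlt
  have hsub : insert e I ⊆ G.edgeSet := insert_subset (hJ.1 heJ) hI.1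
  exact ⟨e, heJ, heI, hsub, (isAcyclic_iff_linearIndepOn (K := ℚ) _ (hd _ hsub)).2 hli⟩

lemma forest_empty (G : SimpleGraph V) :
    (∅ : Set (Sym2 V)) ⊆ G.edgeSet ∧ (SimpleGraph.fromEdgeSet (∅ : Set (Sym2 V))).IsAcyclic := by
  simp

lemma forest_subset (G : SimpleGraph V) ⦃I J : Set (Sym2 V)⦄
    (hJ : J ⊆ G.edgeSet ∧ (SimpleGraph.fromEdgeSet J).IsAcyclic) (hIJ : I ⊆ J) :
    I ⊆ G.edgeSet ∧ (SimpleGraph.fromEdgeSet I).IsAcyclic :=
  ⟨hIJ.trans hJ.1, hJ.2.anti (SimpleGraph.fromEdgeSet_mono hIJ)⟩

end Edge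

end Pool.Agent.P.MP_4e9c6d_co
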