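import Mathlib
import Pool.Agent.P.MP_4e9c6d_co.Graphic

/-!
Definitions for tangential blocks, following the problem file.
-/

open Set

namespace Pool.Agent.P.MP_4e9c6d_co

variable {α β : Type*}

/-- `M` is simple: no loops and no parallel pairs, that is, every set of at most two
elements of the ground set is independent. -/
def IsSimple (M : Matroid α) : Prop :=
  ∀ e ∈ M.E, ∀ f ∈ M.E, M.Indep {e, f}

/-- `M` is coordinatizable over the field `K`: there are vectors `v e` in some `K ^ r` such
that a subset of the ground set is independent iff its vectors are linearly independent. -/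
def IsCoordinatizable (K : Type*) [Field K] (M : Matroid α) : Prop :=
  ∃ (r : ℕ) (v : α → (Fin r → K)), ∀ I ⊆ M.E, (M.Indep I ↔ LinearIndepOn K v I)

/-- The characteristic polynomial: the sum over subsets `X` of the ground set of
`(-1) ^ |X|` times `λ ^ (r(M) - r(X))`. -/
noncomputable def charPoly (M : Matroid α) [M.Finite] : Polynomial ℤ :=
  ∑ X ∈ M.ground_finite.toFinset.powerset,
    (-1) ^ X.card * Polynomial.X ^ (M.eRank.toNat - (M.eRk (X : Set α)).toNat)

/-- The critical exponent `c(M; q)`: the least `j` with `p(M; q ^ j) > 0`. -/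
noncomputable def critExp (M : Matroid α) [M.Finite] (q : ℕ) : ℕ :=
  sInf {j : ℕ | 0 < (charPoly M).eval ((q : ℤ) ^ j)}

/-- A tangential `k`-block over the finite field `K`. -/
def IsTangentialBlock (K : Type*) [Field K] [Fintype K] (k : ℕ) (M : Matroid α) [M.Finite] :
    Prop :=
  IsSimple M ∧ IsCoordinatizable K M ∧ k < critExp M (Fintype.card K) ∧
    ∀ F : Set α, M.IsFlat F → F.Nonempty → critExp (M.contract F) (Fintype.card K) ≤ k

/-- `N` is a quotient of `M`: same ground set, and every flat of `N` is a flat of `M`. -/
def IsQuotient (N M : Matroid β) : Prop :=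
  N.E = M.E ∧ ∀ F : Set β, N.IsFlat F → M.IsFlat F

/-- The cycle matroid of a finite simple graph: the ground set is the edge set, and a set of
edges is independent iff it contains no cycle. -/
noncomputable def cycleMatroid {V : Type*} [Finite V] (G : SimpleGraph V) : Matroid (Sym2 V) :=
  (IndepMatroid.ofFinite (E := G.edgeSet) (toFinite _)
    (fun I => I ⊆ G.edgeSet ∧ (SimpleGraph.fromEdgeSet I).IsAcyclic)
    (forest_empty G) (forest_subset G) (forest_aug G) (fun _ h => h.1)).matroid

/-- `S` is a simplification of `N`: it is the restriction of `N` to a subset of the ground set,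
it is simple, and every non-loop of `N` is equal or parallel to an element of `S`. -/
def IsSimplificationOf (S N : Matroid β) : Prop :=
  S.E ⊆ N.E ∧ S = N.restrict S.E ∧ IsSimple S ∧
    ∀ e, N.IsNonloop e → ∃ f ∈ S.E, e ∈ N.closure {f}

/-- Isomorphism of matroids: a bijection of ground sets preserving independence both ways. -/
def IsIsomorphic (M : Matroid α) (S : Matroid β) : Prop :=
  ∃ f : α → β, BijOn f M.E S.E ∧ ∀ I ⊆ M.E, (M.Indep I ↔ S.Indep (f '' I))

/-- `M` is normal (for `q` and `k`): it is isomorphic to the simplification of a quotient of the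
cycle matroid of the complete graph on `q ^ k + 1` vertices. -/
def IsNormal (q k : ℕ) (M : Matroid α) : Prop :=
  ∃ N S : Matroid (Sym2 (Fin (q ^ k + 1))),
    IsQuotient N (cycleMatroid (SimpleGraph.completeGraph (Fin (q ^ k + 1)))) ∧
      IsSimplificationOf S N ∧ IsIsomorphic M S

/-- `H` is a modular hyperplane: a flat of rank `r(M) - 1` with
`r(H) + r(F) = r(H ∪ F) + r(H ∩ F)` for every flat `F`. -/
def IsModularHyperplane (M : Matroid α) (H : Set α) : Prop :=
  M.IsFlat H ∧ M.eRk H + 1 = M.eRank ∧
    ∀ F : Set α, M.IsFlat F → M.eRk H + M.eRk F = M.eRk (H ∪ F) + M.eRk (H ∩ F)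

end Pool.Agent.P.MP_4e9c6d_co
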