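import Mathlib
import Pool.Agent.P.MP_4e9c6d_co.Defs

/-!
Representations of matroids by vectors, and the Crapo-Rota critical theorem.
-/

open Set Submodule

namespace Pool.Agent.P.MP_4e9c6d_co

section Rep

variable {K W α : Type*} [Field K] [AddCommGroup W] [Module K W]

/-- `v` represents `M` over `K`. -/
def Rep (K : Type*) {W α : Type*} [Field K] [AddCommGroup W] [Module K W]
    (M : Matroid α) (v : α → W) : Prop :=
  ∀ I ⊆ M.E, (M.Indep I ↔ LinearIndepOn K v I)

variable {M : Matroid α} {v : α → W}

lemma Rep.mem_closure_indep (h : Rep K M v) {I : Set α} (hI : M.Indep I) {e : α}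
    (he : e ∈ M.E) : e ∈ M.closure I ↔ v e ∈ span K (v '' I) := by
  by_cases heI : e ∈ I
  · exact ⟨fun _ => subset_span ⟨e, heI, rfl⟩,
      fun _ => M.subset_closure I hI.subset_ground heI⟩
  · have hli := (h I hI.subset_ground).1 hI
    have h1 := hI.insert_indep_iff_of_notMem heI
    rw [h _ (insert_subset he hI.subset_ground), linearIndepOn_insert heI] at h1
    constructor
    · intro hcl
      by_contra hne
      exact (h1.1 ⟨hli, hne⟩).2 hcl
    · intro hsp
      by_contra hne
      exact (h1.2 ⟨he, hne⟩).2 hsp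

lemma Rep.span_eq_of_isBasis (h : Rep K M v) {I X : Set α} (hI : M.IsBasis I X) :
    span K (v '' I) = span K (v '' X) := by
  apply le_antisymm (span_mono (image_mono hI.subset))
  rw [span_le]
  rintro _ ⟨e, he, rfl⟩
  exact (h.mem_closure_indep hI.indep (hI.subset_ground he)).1 (hI.subset_closure he)

lemma Rep.mem_closure (h : Rep K M v) {X : Set α} (hX : X ⊆ M.E) {e : α} (he : e ∈ M.E) :
    e ∈ M.closure X ↔ v e ∈ span K (v '' X) := by
  obtain ⟨I, hI⟩ := M.exists_isBasis X hX
  rw [← hI.closure_eq_closure, h.mem_closure_indep hI.indep he, h.span_eq_of_isBasis hI]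

lemma rep_of_mem_closure
    (h : ∀ X ⊆ M.E, ∀ e ∈ M.E, (e ∈ M.closure X ↔ v e ∈ span K (v '' X))) : Rep K M v := by
  intro I hI
  rw [Matroid.indep_iff_forall_notMem_closure_sdiff hI, linearIndepOn_iff_notMem_span]
  refine forall_congr' fun e => imp_congr_right fun he => ?_
  rw [h _ (sdiff_subset.trans hI) e (hI he)]

lemma Rep.contract (h : Rep K M v) {C : Set α} (hC : C ⊆ M.E) :
    Rep K (M.contract C) ((span K (v '' C)).mkQ ∘ v) := by
  apply rep_of_mem_closure
  intro X hX e he
  rw [Matroid.contract_ground] at hX he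
  rw [Matroid.contract_closure_eq, mem_sdiff, and_iff_left he.2,
    h.mem_closure (union_subset (hX.trans sdiff_subset) hC) he.1, image_union, span_union,
    image_comp, ← Submodule.map_span, Function.comp_apply, ← Submodule.mem_comap,
    Submodule.comap_map_mkQ, sup_comm]

lemma Rep.toNat_eRk [M.Finite] (h : Rep K M v) {X : Set α} (hX : X ⊆ M.E) :
    (M.eRk X).toNat = Module.finrank K (span K (v '' X)) := by
  obtain ⟨I, hI⟩ := M.exists_isBasis X hX
  have hfin : I.Finite := M.ground_finite.subset hI.indep.subset_ground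
  have hli := (h I hI.indep.subset_ground).1 hI.indep
  have : Finite I := hfin
  have := Fintype.ofFinite I
  have h2 := finrank_span_eq_card hli
  rw [← Set.image_eq_range] at h2
  rw [hI.eRk_eq_encard, ← h.span_eq_of_isBasis hI, h2, ← Nat.card_eq_fintype_card,
    Nat.card_coe_set_eq, Set.ncard_def]

end Rep

section Critical

variable {K W α : Type*} [Field K] [Fintype K] [AddCommGroup W] [Module K W]
  [FiniteDimensional K W]

lemma card_linearMap_vanishing (S : Submodule K W) (j : ℕ) :
    Nat.card {f : W →ₗ[K] (Fin j → K) // S ≤ LinearMap.ker f} =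
      (Fintype.card K ^ j) ^ (Module.finrank K W - Module.finrank K S) := by
  let e : {f : W →ₗ[K] (Fin j → K) // S ≤ LinearMap.ker f} ≃ ((W ⧸ S) →ₗ[K] (Fin j → K)) :=
    { toFun := fun f => S.liftQ f.1 f.2
      invFun := fun g => ⟨g ∘ₗ S.mkQ, by
        intro x hx
        simp [LinearMap.mem_ker, (Submodule.Quotient.mk_eq_zero S).2 hx]⟩
      left_inv := fun f => by
        apply Subtype.ext
        exact S.liftQ_mkQ f.1 f.2
      right_inv := fun g => by
        apply Submodule.linearMap_qext
        exact S.liftQ_mkQ _ _ }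
  rw [Nat.card_congr e, Module.natCard_eq_pow_finrank (K := K), Module.finrank_linearMap,
    Module.finrank_fin_fun, Nat.card_eq_fintype_card, ← pow_mul]
  congr 1
  have := S.finrank_quotient_add_finrank
  rw [mul_comm]
  congr 1
  omega

variable {M : Matroid α} {v : α → W}

/-- There is a linear map to `K ^ j` that kills no vector of the representation. -/
def Good (K : Type*) {W α : Type*} [Field K] [AddCommGroup W] [Module K W]
    (M : Matroid α) (v : α → W) (j : ℕ) : Prop :=
  ∃ f : W →ₗ[K] (Fin j → K), ∀ e ∈ M.E, f (v e) ≠ 0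

/-- The critical theorem of Crapo and Rota, in the form we need. -/
lemma Rep.eval_pos_iff [M.Finite] (h : Rep K M v) (j : ℕ) :
    0 < (charPoly M).eval ((Fintype.card K : ℤ) ^ j) ↔ Good K M v j := by
  classical
  have : Finite (W →ₗ[K] (Fin j → K)) := Module.finite_of_finite K
  have := Fintype.ofFinite (W →ₗ[K] (Fin j → K))
  set Q : ℤ := (Fintype.card K : ℤ) ^ j with hQ
  have hQpos : 0 < Q := by positivity
  let S : α → Finset (W →ₗ[K] (Fin j → K)) := fun e => Finset.univ.filter fun f => f (v e) = 0
  have key := Finset.inclusion_exclusion_card_inf_compl M.ground_finite.toFinset S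
  have hcard : ∀ t ∈ M.ground_finite.toFinset.powerset, ((t.inf S).card : ℤ) =
      Q ^ (Module.finrank K W - M.eRank.toNat) *
        Q ^ (M.eRank.toNat - (M.eRk (t : Set α)).toNat) := by
    intro t ht
    have htE : (t : Set α) ⊆ M.E := by
      intro x hx
      have := Finset.mem_powerset.1 ht hx
      simpa using this
    have h1 : (t.inf S).card = Nat.card {f : W →ₗ[K] (Fin j → K) //
        span K (v '' (t : Set α)) ≤ LinearMap.ker f} := by
      rw [Nat.card_eq_fintype_card, Fintype.card_subtype]
      congr 1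
      ext f
      simp only [Finset.mem_inf, S, Finset.mem_filter, Finset.mem_univ, true_and, span_le]
      constructor
      · rintro hf _ ⟨e, he, rfl⟩
        exact hf e he
      · intro hf e he
        exact hf ⟨e, he, rfl⟩
    rw [h1, card_linearMap_vanishing, ← pow_add, hQ]
    push_cast
    congr 1
    have h2 := h.toNat_eRk htE
    have h3 := h.toNat_eRk (subset_refl M.E)
    rw [Matroid.eRk_ground] at h3
    have h4 : Module.finrank K (span K (v '' (t : Set α))) ≤
        Module.finrank K (span K (v '' M.E)) :=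
      Submodule.finrank_mono (span_mono (image_mono htE))
    have h5 := Submodule.finrank_le (span K (v '' M.E))
    omega
  have hsum : ((M.ground_finite.toFinset.inf fun i => (S i)ᶜ).card : ℤ) =
      Q ^ (Module.finrank K W - M.eRank.toNat) * (charPoly M).eval Q := by
    rw [key, charPoly, Polynomial.eval_finsetSum, Finset.mul_sum]
    refine Finset.sum_congr rfl fun t ht => ?_
    rw [hcard t ht]
    simp only [Polynomial.eval_mul, Polynomial.eval_pow, Polynomial.eval_neg,
      Polynomial.eval_one, Polynomial.eval_X]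
    ring
  have hpow : 0 < Q ^ (Module.finrank K W - M.eRank.toNat) := by positivity
  rw [← mul_pos_iff_of_pos_left hpow, ← hsum, Nat.cast_pos, Finset.card_pos]
  constructor
  · rintro ⟨f, hf⟩
    refine ⟨f, fun e he => ?_⟩
    rw [Finset.mem_inf] at hf
    have := hf e (by simpa using he)
    simpa [S] using this
  · rintro ⟨f, hf⟩
    refine ⟨f, ?_⟩
    rw [Finset.mem_inf]
    intro e he
    have := hf e (by simpa using he)
    simpa [S] using this

omit [Fintype K] [FiniteDimensional K W] in
lemma Good.mono {j k : ℕ} (h : Good K M v j) (hjk : j ≤ k) : Good K M v k := by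
  obtain ⟨f, hf⟩ := h
  refine ⟨LinearMap.pi fun i : Fin k =>
    if hi : (i : ℕ) < j then (LinearMap.proj (⟨i, hi⟩ : Fin j)) ∘ₗ f else 0, fun e he h0 => ?_⟩
  apply hf e he
  funext i
  have := congrFun h0 ⟨i, lt_of_lt_of_le i.2 hjk⟩
  simpa using this

omit [Fintype K] in
lemma good_finrank (hv : ∀ e ∈ M.E, v e ≠ 0) : Good K M v (Module.finrank K W) :=
  ⟨(Module.finBasis K W).equivFun.toLinearMap, fun e he h0 => hv e he (by simpa using h0)⟩

lemma Rep.good_of_critExp_le [M.Finite] (h : Rep K M v) (hv : ∀ e ∈ M.E, v e ≠ 0) {k : ℕ}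
    (hk : critExp M (Fintype.card K) ≤ k) : Good K M v k := by
  have hne : {j : ℕ | 0 < (charPoly M).eval ((Fintype.card K : ℤ) ^ j)}.Nonempty :=
    ⟨_, (h.eval_pos_iff _).2 (good_finrank hv)⟩
  exact ((h.eval_pos_iff _).1 (Nat.sInf_mem hne)).mono hk

lemma Rep.critExp_le_of_good [M.Finite] (h : Rep K M v) {k : ℕ} (hk : Good K M v k) :
    critExp M (Fintype.card K) ≤ k :=
  Nat.sInf_le ((h.eval_pos_iff k).2 hk)

end Critical

end Pool.Agent.P.MP_4e9c6d_co
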