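import Mathlib
import Pool.Agent.P.MP_4e9c6d_co.Rep

/-!
Every tangential block with a modular hyperplane is normal.
-/

open Set Submodule

namespace Pool.Agent.P.MP_4e9c6d_co

section Vec

variable {K W α β : Type*} [Field K] [AddCommGroup W] [Module K W]

/-- The matroid of a finite family of vectors. -/
noncomputable def vecMatroid (K : Type*) {W β : Type*} [Field K] [AddCommGroup W] [Module K W]
    (w : β → W) (E : Set β) (hE : E.Finite) : Matroid β :=
  (IndepMatroid.ofFinite (E := E) hE (fun I => I ⊆ E ∧ LinearIndepOn K w I)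
    ⟨empty_subset _, linearIndepOn_empty K w⟩
    (fun _ _ hJ hIJ => ⟨hIJ.trans hJ.1, hJ.2.mono hIJ⟩)
    (fun I J hI hJ hlt => by
      obtain ⟨e, heJ, heI, hli⟩ :=
        linearIndepOn_aug w (hE.subset hI.1) (hE.subset hJ.1) hI.2 hJ.2 hlt
      exact ⟨e, heJ, heI, insert_subset (hJ.1 heJ) hI.1, hli⟩)
    (fun _ h => h.1)).matroid

lemma vecMatroid_E (w : β → W) (E : Set β) (hE : E.Finite) : (vecMatroid K w E hE).E = E := rfl

lemma vecMatroid_indep (w : β → W) (E : Set β) (hE : E.Finite) (I : Set β) :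
    (vecMatroid K w E hE).Indep I ↔ I ⊆ E ∧ LinearIndepOn K w I := by
  simp [vecMatroid]

lemma vecMatroid_rep (w : β → W) (E : Set β) (hE : E.Finite) :
    Rep K (vecMatroid K w E hE) w := by
  intro I hI
  rw [vecMatroid_indep, and_iff_right (show I ⊆ E from hI)]

variable {M : Matroid α} {v : α → W}

lemma Rep.ne_zero (h : Rep K M v) (hs : IsSimple M) {e : α} (he : e ∈ M.E) : v e ≠ 0 := by
  have h1 := hs e he e he
  have h2 := (h _ h1.subset_ground).1 h1
  exact h2.ne_zero (by simp)

lemma Rep.notMem_span_singleton (h : Rep K M v) (hs : IsSimple M) {e f : α} (he : e ∈ M.E)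
    (hf : f ∈ M.E) (hef : e ≠ f) : v e ∉ span K (v '' {f}) := by
  have h1 := hs e he f hf
  have h2 := (h _ h1.subset_ground).1 h1
  rw [linearIndepOn_insert (by simpa using hef)] at h2
  exact h2.2

lemma Rep.eq_of_smul (h : Rep K M v) (hs : IsSimple M) {e f : α} (he : e ∈ M.E)
    (hf : f ∈ M.E) {c d : K} (hc : c ≠ 0) (hcd : c • v e = d • v f) : e = f := by
  by_contra hef
  apply h.notMem_span_singleton hs he hf hef
  rw [image_singleton, mem_span_singleton]
  refine ⟨c⁻¹ * d, ?_⟩
  rw [mul_smul, ← hcd, smul_smul, inv_mul_cancel₀ hc, one_smul]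

lemma Rep.isFlat_singleton (h : Rep K M v) (hs : IsSimple M) {x : α} (hx : x ∈ M.E) :
    M.IsFlat {x} := by
  rw [Matroid.isFlat_iff_closure_eq]
  apply Subset.antisymm
  · intro e he
    by_contra hne
    have heE := M.closure_subset_ground _ he
    exact h.notMem_span_singleton hs heE hx hne
      ((h.mem_closure (singleton_subset_iff.2 hx) heE).1 he)
  · exact M.subset_closure _ (singleton_subset_iff.2 hx)

/-- If two families of vectors give the same projective points and the first represents a simple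
matroid, then that matroid is a simplification of the matroid of the second family. -/
lemma Rep.exists_simplification (h : Rep K M v) (hs : IsSimple M) (w : β → W) (E : Set β)
    (hE : E.Finite) [Nonempty β]
    (h1 : ∀ x ∈ M.E, ∃ e ∈ E, ∃ c : K, c ≠ 0 ∧ w e = c • v x)
    (h2 : ∀ e ∈ E, ∃ x ∈ M.E, ∃ c : K, w e = c • v x) :
    ∃ S : Matroid β, IsSimplificationOf S (vecMatroid K w E hE) ∧ IsIsomorphic M S := by
  classical
  choose! g hgE c hc hgc using h1
  set N := vecMatroid K w E hE with hN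
  have hinj : InjOn g M.E := by
    intro x hx y hy hxy
    refine h.eq_of_smul hs hx hy (hc x hx) (d := c y) ?_
    rw [← hgc x hx, ← hgc y hy, hxy]
  have hsub : g '' M.E ⊆ N.E := by
    rintro _ ⟨x, hx, rfl⟩
    exact hgE x hx
  have hind : ∀ I ⊆ M.E, (M.Indep I ↔ (N.restrict (g '' M.E)).Indep (g '' I)) := by
    intro I hI
    rw [Matroid.restrict_indep_iff, and_iff_left (image_mono hI), hN, vecMatroid_indep,
      and_iff_right (show g '' I ⊆ E from (image_mono hI).trans hsub), h I hI]
    have hcomp : LinearIndepOn K (w ∘ g) I ↔ LinearIndepOn K v I := by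
      let u : I → Kˣ := fun x => Units.mk0 (c x) (hc x (hI x.2))
      have := LinearIndependent.units_smul_iff (R := K) (fun x : I => v x) u
      rw [LinearIndepOn, LinearIndepOn, ← this]
      apply iff_of_eq
      congr 1
      funext x
      simp [u, hgc x (hI x.2), Units.smul_def]
    rw [← hcomp]
    exact ⟨fun hh => hh.image_of_comp, fun hh => hh.comp_of_image (hinj.mono hI)⟩
  refine ⟨N.restrict (g '' M.E), ⟨hsub, rfl, ?_, ?_⟩, g, hinj.bijOn_image, hind⟩
  · rintro _ ⟨x, hx, rfl⟩ _ ⟨y, hy, rfl⟩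
    have := (hind {x, y} (by simp [insert_subset_iff, hx, hy])).1 (hs x hx y hy)
    rwa [image_pair] at this
  · intro e he
    obtain ⟨x, hx, d, hd⟩ := h2 e he.mem_ground
    refine ⟨g x, ⟨x, hx, rfl⟩, ?_⟩
    rw [(vecMatroid_rep w E hE).mem_closure (singleton_subset_iff.2 (hgE x hx)) he.mem_ground,
      image_singleton, mem_span_singleton]
    refine ⟨d * (c x)⁻¹, ?_⟩
    rw [hgc x hx, hd, smul_smul, mul_assoc, inv_mul_cancel₀ (hc x hx), mul_one]

end Vec

section Quot

variable {K W V : Type*} [Field K] [AddCommGroup W] [Module K W]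

lemma cycleMatroid_E [Finite V] (G : SimpleGraph V) : (cycleMatroid G).E = G.edgeSet := rfl

lemma cycleMatroid_indep [Finite V] (G : SimpleGraph V) (I : Set (Sym2 V)) :
    (cycleMatroid G).Indep I ↔ I ⊆ G.edgeSet ∧ (SimpleGraph.fromEdgeSet I).IsAcyclic := by
  simp [cycleMatroid]

/-- The matroid of the difference vectors of the edges is a quotient of the cycle matroid. -/
lemma isQuotient_vecMatroid [Finite V] (G : SimpleGraph V) (p : V → W) :
    IsQuotient (vecMatroid K (edgeVec p) G.edgeSet (toFinite _)) (cycleMatroid G) := by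
  classical
  refine ⟨rfl, fun F hF => ?_⟩
  have hFE : F ⊆ G.edgeSet := hF.subset_ground
  have hrep : Rep K (cycleMatroid G)
      (edgeVec (fun v : V => (Finsupp.single v (1 : K) : V →₀ K))) := by
    intro I hI
    rw [cycleMatroid_indep, and_iff_right (show I ⊆ G.edgeSet from hI)]
    exact isAcyclic_iff_linearIndepOn I (fun e he => G.not_isDiag_of_mem_edgeSet (hI he))
  rw [Matroid.isFlat_iff_closure_eq]
  refine Subset.antisymm (fun e he => ?_) ((cycleMatroid G).subset_closure F hFE)
  have heE : e ∈ G.edgeSet := (cycleMatroid G).closure_subset_ground _ he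
  rw [hrep.mem_closure hFE heE] at he
  rw [← hF.closure, (vecMatroid_rep (K := K) (edgeVec p) G.edgeSet (toFinite _)).mem_closure
    hFE heE]
  let π : (V →₀ K) →ₗ[K] W := Finsupp.linearCombination K p
  have hπ : ∀ e, π (edgeVec (fun v : V => (Finsupp.single v (1 : K) : V →₀ K)) e) =
      edgeVec p e := by
    intro e
    simp [π, edgeVec]
  have := Submodule.mem_map_of_mem (f := π) he
  rw [hπ, Submodule.map_span, ← image_comp] at this
  have hfun : (π ∘ edgeVec (fun v : V => (Finsupp.single v (1 : K) : V →₀ K))) = edgeVec p :=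
    funext hπ
  rwa [hfun] at this

end Quot

section Main

variable {K W α : Type*} [Field K] [Fintype K] [AddCommGroup W] [Module K W]
  [FiniteDimensional K W] {M : Matroid α} {v : α → W}

omit [Fintype K] [FiniteDimensional K W] in
lemma Rep.exists_functional [M.Finite] (h : Rep K M v) {H : Set α} (hH : M.IsFlat H)
    (hr : M.eRk H + 1 = M.eRank) :
    (M.E \ H).Nonempty ∧
      ∃ φ : W →ₗ[K] K, (∀ x ∈ H, φ (v x) = 0) ∧ ∀ a ∈ M.E \ H, φ (v a) ≠ 0 := by
  have hfin : M.eRank ≠ ⊤ := (M.eRank_ne_top_iff).2 inferInstance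
  have hne : (M.E \ H).Nonempty := by
    rw [sdiff_nonempty]
    intro hEH
    rw [Matroid.eRk_eq_eRank hEH] at hr
    lift M.eRank to ℕ using hfin with n
    norm_cast at hr
    omega
  refine ⟨hne, ?_⟩
  obtain ⟨a₀, ha₀⟩ := hne
  have h0 : v a₀ ∉ span K (v '' H) := by
    rw [← h.mem_closure hH.subset_ground ha₀.1, hH.closure]
    exact ha₀.2
  obtain ⟨φ, hφ, hker⟩ := Submodule.exists_le_ker_of_notMem h0
  refine ⟨φ, fun x hx => hker (subset_span ⟨x, hx, rfl⟩), fun a ha h0 => hφ ?_⟩
  have hsub : insert a H ⊆ M.E := insert_subset ha.1 hH.subset_ground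
  have hsp : M.Spanning (insert a H) := by
    rw [Matroid.spanning_iff_eRk_le hsub, Matroid.eRk_insert_eq_add_one (by rwa [hH.closure]),
      hr]
  have hmem : a₀ ∈ M.closure (insert a H) := by
    rw [hsp.closure_eq]; exact ha₀.1
  rw [h.mem_closure hsub ha₀.1] at hmem
  have hle : span K (v '' insert a H) ≤ LinearMap.ker φ := by
    rw [span_le]
    rintro _ ⟨x, hx, rfl⟩
    rcases hx with rfl | hx
    · exact h0
    · exact hker (subset_span ⟨x, hx, rfl⟩)
  exact hle hmem

omit [Fintype K] [FiniteDimensional K W] in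
lemma Rep.exists_mem_line [M.Finite] (h : Rep K M v) (hs : IsSimple M) {H : Set α}
    (hH : IsModularHyperplane M H) {a b : α} (ha : a ∈ M.E) (hb : b ∈ M.E) (hab : a ≠ b) :
    ∃ x ∈ H, v x ∈ span K {v a, v b} := by
  have hfin : M.eRank ≠ ⊤ := (M.eRank_ne_top_iff).2 inferInstance
  have hmod := hH.2.2 (M.closure {a, b}) (M.isFlat_closure _)
  rw [Matroid.eRk_closure_eq, (hs a ha b hb).eRk_eq_encard, encard_pair hab] at hmod
  have hle := M.eRk_le_eRank (H ∪ M.closure {a, b})
  have hne : (H ∩ M.closure {a, b}).Nonempty := by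
    by_contra hcon
    rw [not_nonempty_iff_eq_empty] at hcon
    rw [hcon, Matroid.eRk_empty, add_zero] at hmod
    rw [← hmod, ← hH.2.1] at hle
    have hHfin : M.eRk H ≠ ⊤ := ne_top_of_le_ne_top hfin (M.eRk_le_eRank H)
    lift M.eRk H to ℕ using hHfin with n
    norm_cast at hle
    omega
  obtain ⟨x, hxH, hx⟩ := hne
  refine ⟨x, hxH, ?_⟩
  rw [h.mem_closure (by simp [insert_subset_iff, ha, hb]) (hH.1.subset_ground hxH),
    image_pair] at hx
  exact hx

lemma Rep.exists_map_kill [M.Finite] (h : Rep K M v) (hs : IsSimple M) {k : ℕ} {x : α}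
    (hx : x ∈ M.E) (hk : critExp (M.contract {x}) (Fintype.card K) ≤ k) :
    ∃ f : W →ₗ[K] (Fin k → K), f (v x) = 0 ∧ ∀ e ∈ M.E, e ≠ x → f (v e) ≠ 0 := by
  have hrep := h.contract (singleton_subset_iff.2 hx)
  obtain ⟨g, hg⟩ := hrep.good_of_critExp_le (fun e he h0 => by
    rw [Matroid.contract_ground] at he
    apply h.notMem_span_singleton hs he.1 hx he.2
    simpa using h0) hk
  refine ⟨g ∘ₗ (span K (v '' {x})).mkQ, ?_, fun e he hne => hg e ⟨he, hne⟩⟩
  have : (span K (v '' {x})).mkQ (v x) = 0 := by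
    simp
  simp only [LinearMap.comp_apply, this, map_zero]

theorem isNormal_of_modular [M.Finite] (h : Rep K M v) (hs : IsSimple M) {k : ℕ}
    (hk : k < critExp M (Fintype.card K))
    (hc : ∀ F : Set α, M.IsFlat F → F.Nonempty → critExp (M.contract F) (Fintype.card K) ≤ k)
    {H : Set α} (hH : IsModularHyperplane M H) : IsNormal (Fintype.card K) k M := by
  classical
  obtain ⟨⟨a₀, ha₀⟩, φ, hφH, hφA⟩ := h.exists_functional hH.1 hH.2.1
  set A := M.E \ H with hA
  have hHE : H ⊆ M.E := hH.1.subset_ground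
  let u : α → W := fun a => (φ (v a))⁻¹ • v a
  have hu : ∀ a ∈ A, φ (u a) = 1 := by
    intro a ha
    simp [u, hφA a ha]
  have hvu : ∀ a ∈ A, v a = φ (v a) • u a := by
    intro a ha
    simp [u, smul_smul, hφA a ha]
  -- differences of normalised points are multiples of points of `H`
  have hdiff : ∀ a ∈ A, ∀ b ∈ A, a ≠ b → ∃ x ∈ H, ∃ c : K, c ≠ 0 ∧ u a - u b = c • v x := by
    intro a ha b hb hab
    obtain ⟨x, hxH, hx⟩ := h.exists_mem_line hs hH ha.1 hb.1 hab
    rw [mem_span_pair] at hx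
    obtain ⟨s, t, hst⟩ := hx
    have h1 : v x = (s * φ (v a)) • u a + (t * φ (v b)) • u b := by
      rw [mul_smul, mul_smul, ← hvu a ha, ← hvu b hb, hst]
    have h2 : s * φ (v a) + t * φ (v b) = 0 := by
      have := hφH x hxH
      rw [h1, map_add, map_smul φ _ (u a), map_smul φ _ (u b), hu a ha, hu b hb] at this
      simpa using this
    have h3 : v x = (s * φ (v a)) • (u a - u b) := by
      rw [h1, eq_neg_of_add_eq_zero_right h2, neg_smul, smul_sub, sub_eq_add_neg]
    have h4 : s * φ (v a) ≠ 0 := by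
      intro h0
      rw [h0, zero_smul] at h3
      exact h.ne_zero hs (hHE hxH) h3
    refine ⟨x, hxH, (s * φ (v a))⁻¹, inv_ne_zero h4, ?_⟩
    rw [h3, smul_smul, inv_mul_cancel₀ h4, one_smul]
  have hkill : ∀ x ∈ M.E, ∃ f : W →ₗ[K] (Fin k → K),
      f (v x) = 0 ∧ ∀ e ∈ M.E, e ≠ x → f (v e) ≠ 0 := fun x hx =>
    h.exists_map_kill hs hx (hc _ (h.isFlat_singleton hs hx) (singleton_nonempty x))
  -- the normalised points of `A` are in bijection with `K ^ k`
  obtain ⟨f₀, hf₀, hf₀'⟩ := hkill a₀ ha₀.1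
  have hf₀H : ∀ x ∈ H, f₀ (v x) ≠ 0 := fun x hx =>
    hf₀' x (hHE hx) (fun hxa => ha₀.2 (hxa ▸ hx))
  have hinj₀ : Function.Injective (fun a : A => f₀ (u a)) := by
    intro a b hab
    by_contra hne
    obtain ⟨x, hxH, c, hc0, hx⟩ := hdiff a a.2 b b.2 (fun hh => hne (Subtype.ext hh))
    have : f₀ (u a - u b) = 0 := by
      rw [map_sub]; exact sub_eq_zero.2 hab
    rw [hx, map_smul, smul_eq_zero] at this
    exact this.elim hc0 (hf₀H x hxH)
  have hsurj₀ : Function.Surjective (fun a : A => f₀ (u a)) := by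
    intro t
    by_contra hcon
    push Not at hcon
    have hgood : Good K M v k := by
      refine ⟨f₀ - φ.smulRight t, fun e he h0 => ?_⟩
      rw [LinearMap.sub_apply, LinearMap.smulRight_apply, sub_eq_zero] at h0
      by_cases heH : e ∈ H
      · rw [hφH e heH, zero_smul] at h0
        exact hf₀H e heH h0
      · have heA : e ∈ A := ⟨he, heH⟩
        apply hcon ⟨e, heA⟩
        simp only [u, map_smul, h0, smul_smul, inv_mul_cancel₀ (hφA e heA), one_smul]
    exact absurd (h.critExp_le_of_good hgood) (not_le.2 hk)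
  have hAfin : Finite A := M.ground_finite.subset sdiff_subset
  have hcardA : Nat.card A = Fintype.card K ^ k := by
    rw [Nat.card_eq_of_bijective _ ⟨hinj₀, hsurj₀⟩]
    simp
  -- every point of `H` is a direction determined by `A`
  have hdir : ∀ x ∈ H, ∃ a ∈ A, ∃ b ∈ A, a ≠ b ∧ ∃ c : K, c ≠ 0 ∧ u a - u b = c • v x := by
    intro x hxH
    by_contra hcon
    obtain ⟨f, hf, hf'⟩ := hkill x (hHE hxH)
    have hinj : Function.Injective (fun a : A => f (u a)) := by
      intro a b hab
      by_contra hne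
      have hne' : (a : α) ≠ b := fun hh => hne (Subtype.ext hh)
      obtain ⟨y, hyH, c, hc0, hy⟩ := hdiff a a.2 b b.2 hne'
      have h0 : f (u a - u b) = 0 := by
        rw [map_sub]; exact sub_eq_zero.2 hab
      rw [hy, map_smul, smul_eq_zero] at h0
      have hyx : y = x := by
        by_contra hyx
        exact h0.elim hc0 (hf' y (hHE hyH) hyx)
      exact hcon ⟨a, a.2, b, b.2, hne', c, hc0, hyx ▸ hy⟩
    have hbij : Function.Bijective (fun a : A => f (u a)) :=
      hinj.bijective_of_nat_card_le (by rw [hcardA]; simp)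
    obtain ⟨a, ha⟩ := hbij.2 0
    simp only [u, map_smul, smul_eq_zero, inv_eq_zero] at ha
    exact ha.elim (hφA a a.2) (hf' a a.2.1 (fun hax => a.2.2 (hax ▸ hxH)))
  -- the complete graph on `A` together with one further vertex
  have hcardO : Nat.card (Fin (Fintype.card K ^ k + 1)) = Nat.card (Option A) := by
    rw [Finite.card_option, hcardA]; simp
  obtain ⟨σ⟩ := Finite.card_eq.1 hcardO
  let p' : Option A → W := fun o => o.elim 0 fun a => u a
  let p : Fin (Fintype.card K ^ k + 1) → W := fun i => p' (σ i)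
  have hedge : ∀ o o' : Option A, o ≠ o' → ∀ x ∈ M.E, ∀ c : K, c ≠ 0 → p' o - p' o' = c • v x →
      ∃ e ∈ (SimpleGraph.completeGraph (Fin (Fintype.card K ^ k + 1))).edgeSet,
        ∃ c : K, c ≠ 0 ∧ edgeVec p e = c • v x := by
    intro o o' hne x _ c hc0 hx
    refine ⟨s(σ.symm o, σ.symm o'), by simpa using hne, ?_⟩
    rcases edgeVec_mk p (σ.symm o) (σ.symm o') with h1 | h1
    · exact ⟨c, hc0, by rw [h1]; simpa [p] using hx⟩
    · refine ⟨-c, neg_ne_zero.2 hc0, ?_⟩
      rw [h1, neg_smul, ← hx]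
      simp [p]
  have hpair : ∀ o o' : Option A, o ≠ o' → ∃ x ∈ M.E, ∃ c : K, p' o - p' o' = c • v x := by
    intro o o' hne
    rcases o with _ | a <;> rcases o' with _ | b
    · exact absurd rfl hne
    · exact ⟨b, b.2.1, -(φ (v b))⁻¹, by simp [p', u]⟩
    · exact ⟨a, a.2.1, (φ (v a))⁻¹, by simp [p', u]⟩
    · obtain ⟨x, hxH, c, -, hx⟩ := hdiff a a.2 b b.2 (fun hh => hne (by rw [Subtype.ext hh]))
      exact ⟨x, hHE hxH, c, by simpa [p'] using hx⟩
  have : Nonempty (Sym2 (Fin (Fintype.card K ^ k + 1))) := ⟨s(0, 0)⟩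
  obtain ⟨S, hS, hMS⟩ := h.exists_simplification hs (edgeVec p)
    (SimpleGraph.completeGraph (Fin (Fintype.card K ^ k + 1))).edgeSet (toFinite _)
    (fun x hx => by
      by_cases hxH : x ∈ H
      · obtain ⟨a, ha, b, hb, hab, c, hc0, hc'⟩ := hdir x hxH
        exact hedge (some ⟨a, ha⟩) (some ⟨b, hb⟩) (by simpa using hab) x hx c hc0
          (by simpa [p'] using hc')
      · have hxA : x ∈ A := ⟨hx, hxH⟩
        exact hedge (some ⟨x, hxA⟩) none (by simp) x hx (φ (v x))⁻¹
          (inv_ne_zero (hφA x hxA)) (by simp [p', u]))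
    (fun e he => by
      induction e using Sym2.ind with
      | h i j =>
      have hij : σ i ≠ σ j := by simpa using he
      rcases edgeVec_mk p i j with h1 | h1
      · rw [h1]; exact hpair _ _ hij
      · rw [h1]; exact hpair _ _ hij.symm)
  exact ⟨_, S, isQuotient_vecMatroid _ p, hS, hMS⟩

end Main

end Pool.Agent.P.MP_4e9c6d_co
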